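import Pool.Agent.Helper45.CF.GoalsA

/-!
# Project CF, packet GEN: the isometry `v` and the diagonal copy `ρ` of `W`
-/

set_option autoImplicit false

open scoped ComplexOrder ZeroAtInfty Topology ComplexConjugate
open TopologicalSpace Filter

namespace Pool.Agent.Helper97.CF

open Pool.Agent.Helper45.CF

noncomputable section

/-- Pointwise Cauchy sequences of bounded maps: a dense set is enough. -/
theorem cauchy_of_dense {K : Type} [NonUnitalCStarAlgebra K] (T : ℕ → K → K) (C : ℝ)
    (hT : ∀ n x y, T n (x - y) = T n x - T n y) (hC : ∀ n x, ‖T n x‖ ≤ C * ‖x‖) {D : Set K}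
    (hD : Dense D) (hcau : ∀ x ∈ D, CauchySeq fun n => T n x) (x : K) :
    CauchySeq fun n => T n x := by
  rw [Metric.cauchySeq_iff]
  intro ε hε
  have hC1 : 0 < |C| + 1 := by positivity
  obtain ⟨y, hy, hxy⟩ := Metric.dense_iff.1 hD x (ε / 3 / (|C| + 1)) (by positivity)
  obtain ⟨N, hN⟩ := Metric.cauchySeq_iff.1 (hcau _ hxy) (ε / 3) (by positivity)
  refine ⟨N, fun m hm n hn => ?_⟩
  have hb : ∀ n, dist (T n x) (T n y) < ε / 3 := by
    intro n
    rw [dist_eq_norm, ← hT]
    rw [Metric.mem_ball, dist_comm, dist_eq_norm, lt_div_iff₀ hC1] at hy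
    calc ‖T n (x - y)‖ ≤ C * ‖x - y‖ := hC n _
      _ ≤ (|C| + 1) * ‖x - y‖ := by
        apply mul_le_mul_of_nonneg_right _ (norm_nonneg _)
        have := le_abs_self C
        linarith
      _ < ε / 3 := by linarith
  have h1 := hb m
  have h2 := hb n
  have h3 := hN m hm n hn
  have h4 := dist_triangle4 (T m x) (T m y) (T n y) (T n x)
  rw [dist_comm (T n y)] at h4
  linarith

section

variable {W K : Type} [CStarAlgebra W] [NonUnitalCStarAlgebra K] {e : ℕ → ℕ → W →ₗ[ℂ] K}

/-- the diagonal copy of `W` in the corner of size `n`. -/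
def dh (he : IUnits e) (n : ℕ) : W →⋆ₙₐ[ℂ] K where
  toFun w := ∑ i ∈ Finset.range n, e i i w
  map_smul' c w := by
    rw [Finset.smul_sum]
    exact Finset.sum_congr rfl fun i _ => map_smul (e i i) c w
  map_zero' := Finset.sum_eq_zero fun i _ => map_zero _
  map_add' a b := by
    rw [← Finset.sum_add_distrib]
    exact Finset.sum_congr rfl fun i _ => map_add _ _ _
  map_mul' a b := by
    rw [Finset.sum_mul_sum]
    refine Finset.sum_congr rfl fun i hi => ?_
    rw [Finset.sum_eq_single i, he.mul]
    · intro j _ hj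
      exact he.mul0 _ _ _ _ _ _ (Ne.symm hj)
    · intro h
      exact absurd hi h
  map_star' a := by
    rw [star_sum]
    exact Finset.sum_congr rfl fun i _ => (he.star i i a).symm

theorem dh_apply (he : IUnits e) (n : ℕ) (w : W) :
    dh he n w = ∑ i ∈ Finset.range n, e i i w := rfl

/-- the truncated shift. -/
def bsh (e : ℕ → ℕ → W →ₗ[ℂ] K) (n : ℕ) : K := ∑ i ∈ Finset.range n, e (i + 1) i 1

theorem star_bsh_mul (he : IUnits e) (n : ℕ) : star (bsh e n) * bsh e n = dh he n 1 := by
  unfold bsh
  rw [star_sum, Finset.sum_mul_sum, dh_apply]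
  refine Finset.sum_congr rfl fun i hi => ?_
  rw [Finset.sum_eq_single i, he.star, he.mul, star_one, one_mul]
  · intro j _ hj
    rw [he.star]
    exact he.mul0 _ _ _ _ _ _ (by omega)
  · intro h
    exact absurd hi h

theorem norm_bsh (he : IUnits e) (n : ℕ) : ‖bsh e n‖ ≤ ‖(1 : W)‖ + 1 := by
  have h1 : ‖bsh e n‖ * ‖bsh e n‖ ≤ ‖(1 : W)‖ := by
    rw [← CStarRing.norm_star_mul_self, star_bsh_mul he]
    exact NonUnitalStarAlgHom.norm_apply_le _ _
  have h2 := norm_nonneg (bsh e n)
  have h3 := norm_nonneg (1 : W)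
  nlinarith

theorem bsh_mul (he : IUnits e) (n i j : ℕ) (w : W) (h : i < n) :
    bsh e n * e i j w = e (i + 1) j w := by
  unfold bsh
  rw [Finset.sum_mul, Finset.sum_eq_single i, he.mul, one_mul]
  · intro l _ hl
    exact he.mul0 _ _ _ _ _ _ hl
  · intro h'
    exact absurd (Finset.mem_range.2 h) h'

theorem mul_bsh_zero (he : IUnits e) (n i : ℕ) (w : W) : e i 0 w * bsh e n = 0 := by
  unfold bsh
  rw [Finset.mul_sum]
  refine Finset.sum_eq_zero fun l _ => ?_
  exact he.mul0 _ _ _ _ _ _ (by omega)

theorem mul_bsh_succ (he : IUnits e) (n i j : ℕ) (w : W) (h : j < n) :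
    e i (j + 1) w * bsh e n = e i j w := by
  unfold bsh
  rw [Finset.mul_sum, Finset.sum_eq_single j, he.mul, mul_one]
  · intro l _ hl
    exact he.mul0 _ _ _ _ _ _ (by omega)
  · intro h'
    exact absurd (Finset.mem_range.2 h) h'

theorem dh_mul (he : IUnits e) (n i j : ℕ) (w w' : W) (h : i < n) :
    dh he n w' * e i j w = e i j (w' * w) := by
  rw [dh_apply, Finset.sum_mul, Finset.sum_eq_single i, he.mul]
  · intro l _ hl
    exact he.mul0 _ _ _ _ _ _ hl
  · intro h'
    exact absurd (Finset.mem_range.2 h) h'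

theorem mul_dh (he : IUnits e) (n i j : ℕ) (w w' : W) (h : j < n) :
    e i j w * dh he n w' = e i j (w * w') := by
  rw [dh_apply, Finset.mul_sum, Finset.sum_eq_single j, he.mul]
  · intro l _ hl
    exact he.mul0 _ _ _ _ _ _ (Ne.symm hl)
  · intro h'
    exact absurd (Finset.mem_range.2 h) h'

/-- left and right multiplications converge if they do so on the matrix units. -/
theorem cauchy_left (he : IUnits e) (b : ℕ → K) (C : ℝ) (hC : ∀ n, ‖b n‖ ≤ C)
    (h : ∀ i j w, ∃ y, Tendsto (fun n => b n * e i j w) atTop (𝓝 y)) (x : K) :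
    CauchySeq fun n => b n * x := by
  refine cauchy_of_dense (fun n x => b n * x) C (fun n x y => mul_sub _ _ _)
    (fun n x => (norm_mul_le _ _).trans (mul_le_mul_of_nonneg_right (hC n) (norm_nonneg _)))
    he.dense ?_ x
  rintro x ⟨n, f, rfl⟩
  choose y hy using h
  have h1 : Tendsto (fun m => b m * ∑ i ∈ Finset.range n, ∑ j ∈ Finset.range n, e i j (f i j))
      atTop (𝓝 (∑ i ∈ Finset.range n, ∑ j ∈ Finset.range n, y i j (f i j))) := by
    have h2 : (fun m => b m * ∑ i ∈ Finset.range n, ∑ j ∈ Finset.range n, e i j (f i j))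
        = fun m => ∑ i ∈ Finset.range n, ∑ j ∈ Finset.range n, b m * e i j (f i j) := by
      funext m
      rw [Finset.mul_sum]
      exact Finset.sum_congr rfl fun i _ => Finset.mul_sum _ _ _
    rw [h2]
    exact tendsto_finsetSum _ fun i _ => tendsto_finsetSum _ fun j _ => hy i j (f i j)
  exact h1.cauchySeq

theorem cauchy_right (he : IUnits e) (b : ℕ → K) (C : ℝ) (hC : ∀ n, ‖b n‖ ≤ C)
    (h : ∀ i j w, ∃ y, Tendsto (fun n => e i j w * b n) atTop (𝓝 y)) (x : K) :
    CauchySeq fun n => x * b n := by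
  refine cauchy_of_dense (fun n x => x * b n) C (fun n x y => sub_mul _ _ _)
    (fun n x => (norm_mul_le _ _).trans (by
      rw [mul_comm]
      exact mul_le_mul_of_nonneg_right (hC n) (norm_nonneg _)))
    he.dense ?_ x
  rintro x ⟨n, f, rfl⟩
  choose y hy using h
  have h1 : Tendsto (fun m => (∑ i ∈ Finset.range n, ∑ j ∈ Finset.range n, e i j (f i j)) * b m)
      atTop (𝓝 (∑ i ∈ Finset.range n, ∑ j ∈ Finset.range n, y i j (f i j))) := by
    have h2 : (fun m => (∑ i ∈ Finset.range n, ∑ j ∈ Finset.range n, e i j (f i j)) * b m)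
        = fun m => ∑ i ∈ Finset.range n, ∑ j ∈ Finset.range n, e i j (f i j) * b m := by
      funext m
      rw [Finset.sum_mul]
      exact Finset.sum_congr rfl fun i _ => Finset.sum_mul _ _ _
    rw [h2]
    exact tendsto_finsetSum _ fun i _ => tendsto_finsetSum _ fun j _ => hy i j (f i j)
  exact h1.cauchySeq

theorem tend_of_ev {X : Type} [TopologicalSpace X] {f : ℕ → X} {y : X} (N : ℕ)
    (h : ∀ n, N < n → f n = y) : Tendsto f atTop (𝓝 y) := by
  refine tendsto_const_nhds.congr' ?_
  filter_upwards [eventually_gt_atTop N] with n hn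
  exact (h n hn).symm

theorem tend_bsh_mul (he : IUnits e) (i j : ℕ) (w : W) :
    Tendsto (fun n => bsh e n * e i j w) atTop (𝓝 (e (i + 1) j w)) :=
  tend_of_ev i fun n hn => bsh_mul he n i j w hn

theorem tend_mul_bsh_zero (he : IUnits e) (i : ℕ) (w : W) :
    Tendsto (fun n => e i 0 w * bsh e n) atTop (𝓝 0) :=
  tend_of_ev 0 fun n _ => mul_bsh_zero he n i w

theorem tend_mul_bsh_succ (he : IUnits e) (i j : ℕ) (w : W) :
    Tendsto (fun n => e i (j + 1) w * bsh e n) atTop (𝓝 (e i j w)) :=
  tend_of_ev j fun n hn => mul_bsh_succ he n i j w hn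

theorem tend_dh_mul (he : IUnits e) (i j : ℕ) (w w' : W) :
    Tendsto (fun n => dh he n w' * e i j w) atTop (𝓝 (e i j (w' * w))) :=
  tend_of_ev i fun n hn => dh_mul he n i j w w' hn

theorem tend_mul_dh (he : IUnits e) (i j : ℕ) (w w' : W) :
    Tendsto (fun n => e i j w * dh he n w') atTop (𝓝 (e i j (w * w'))) :=
  tend_of_ev j fun n hn => mul_dh he n i j w w' hn

end

theorem t (hMUL : S_MUL) : S_GEN := by
  intro W K _ _ e he
  obtain ⟨M, instM, k, kinj, kid, kess, kst⟩ := hMUL K
  have kc : Continuous k := continuous_hom k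
  -- elements of `M` are determined by the products with matrix units
  have ext0 : ∀ m : M, (∀ i j w, m * k (e i j w) = 0) → m = 0 := by
    intro m hm
    apply kess
    have hcl : IsClosed {x : K | m * k x = 0} :=
      isClosed_eq (continuous_const.mul kc) continuous_const
    have hsub : {x : K | ∃ (n : ℕ) (f : ℕ → ℕ → W),
        x = ∑ i ∈ Finset.range n, ∑ j ∈ Finset.range n, e i j (f i j)} ⊆
        {x : K | m * k x = 0} := by
      rintro x ⟨n, f, rfl⟩
      change m * k _ = 0
      rw [map_sum, Finset.mul_sum]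
      refine Finset.sum_eq_zero fun i _ => ?_
      rw [map_sum, Finset.mul_sum]
      exact Finset.sum_eq_zero fun j _ => hm i j _
    intro x
    exact (hcl.closure_subset_iff.2 hsub) (he.dense x)
  have ext : ∀ m m' : M, (∀ i j w, m * k (e i j w) = m' * k (e i j w)) → m = m' := by
    intro m m' h
    rw [← sub_eq_zero]
    apply ext0
    intro i j w
    rw [sub_mul, h, sub_self]
  -- the isometry
  obtain ⟨v, hv⟩ := kst (bsh e) (‖(1 : W)‖ + 1) (norm_bsh he)
    (cauchy_left he _ _ (norm_bsh he) fun i j w => ⟨_, tend_bsh_mul he i j w⟩)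
    (cauchy_right he _ _ (norm_bsh he) fun i j w => by
      cases j with
      | zero => exact ⟨_, tend_mul_bsh_zero he i w⟩
      | succ j => exact ⟨_, tend_mul_bsh_succ he i j w⟩)
  have v1 : ∀ i j w, v * k (e i j w) = k (e (i + 1) j w) := fun i j w =>
    tendsto_nhds_unique (hv _).1 ((kc.tendsto _).comp (tend_bsh_mul he i j w))
  have v2 : ∀ i w, k (e i 0 w) * v = 0 := fun i w => by
    have h1 := tendsto_nhds_unique (hv _).2 ((kc.tendsto _).comp (tend_mul_bsh_zero he i w))
    rw [h1, map_zero]
  have v3 : ∀ i j w, k (e i (j + 1) w) * v = k (e i j w) := fun i j w =>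
    tendsto_nhds_unique (hv _).2 ((kc.tendsto _).comp (tend_mul_bsh_succ he i j w))
  have ks : ∀ i j w, star (k (e i j w)) = k (e j i (star w)) := fun i j w => by
    rw [← map_star, he.star]
  have s1 : ∀ j w, star v * k (e 0 j w) = 0 := by
    intro j w
    have h1 := congrArg star (v2 j (star w))
    rw [star_mul, star_zero, ks, star_star] at h1
    exact h1
  have s2 : ∀ i j w, star v * k (e (i + 1) j w) = k (e i j w) := by
    intro i j w
    have h1 := congrArg star (v3 j i (star w))
    rw [star_mul, ks, ks, star_star] at h1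
    exact h1
  -- the diagonal copy
  have hρ : ∀ w' : W, ∃ m : M, (∀ i j w, m * k (e i j w) = k (e i j (w' * w))) ∧
      ∀ i j w, k (e i j w) * m = k (e i j (w * w')) := by
    intro w'
    obtain ⟨m, hm⟩ := kst (fun n => dh he n w') ‖w'‖
      (fun n => NonUnitalStarAlgHom.norm_apply_le _ _)
      (cauchy_left he _ _ (fun n => NonUnitalStarAlgHom.norm_apply_le _ _)
        fun i j w => ⟨_, tend_dh_mul he i j w w'⟩)
      (cauchy_right he _ _ (fun n => NonUnitalStarAlgHom.norm_apply_le _ _)
        fun i j w => ⟨_, tend_mul_dh he i j w w'⟩)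
    exact ⟨m, fun i j w => tendsto_nhds_unique (hm _).1 ((kc.tendsto _).comp
      (tend_dh_mul he i j w w')), fun i j w => tendsto_nhds_unique (hm _).2
      ((kc.tendsto _).comp (tend_mul_dh he i j w w'))⟩
  choose ρ0 r1 r2 using hρ
  let ρ : W →⋆ₐ[ℂ] M :=
    { toFun := ρ0
      map_one' := by
        apply ext
        intro i j w
        rw [r1, one_mul, one_mul]
      map_mul' := by
        intro a b
        apply ext
        intro i j w
        rw [r1, mul_assoc, mul_assoc, r1, r1]
      map_zero' := by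
        apply ext
        intro i j w
        rw [r1, zero_mul, zero_mul, map_zero, map_zero]
      map_add' := by
        intro a b
        apply ext
        intro i j w
        rw [r1, add_mul, add_mul, r1, r1, map_add, map_add]
      commutes' := by
        intro c
        apply ext
        intro i j w
        rw [r1, ← Algebra.smul_def, map_smul, map_smul, ← Algebra.smul_def]
      map_star' := by
        intro a
        apply ext
        intro i j w
        have h1 := congrArg star (r2 a j i (star w))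
        rw [star_mul, ks, ks, star_star, star_mul, star_star] at h1
        rw [r1, h1] }
  have hρ1 : ∀ w' i j w, ρ w' * k (e i j w) = k (e i j (w' * w)) := r1
  refine ⟨M, instM, k, ρ, v, kinj, kid, ?_, ?_, ?_, ?_⟩
  · apply ext
    intro i j w
    rw [mul_assoc, v1, s2, one_mul]
  · apply ext
    intro i j w
    rw [mul_assoc, sub_mul, one_mul, ← map_mul]
    cases i with
    | zero => rw [s1, mul_zero, he.mul, one_mul, sub_self]
    | succ i => rw [s2, v1, he.mul0 _ _ _ _ _ _ (Nat.succ_ne_zero i).symm, map_zero, sub_zero]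
  · intro w'
    apply ext
    intro i j w
    rw [mul_assoc, mul_assoc, hρ1, v1, v1, hρ1]
  · intro w
    rw [hρ1, mul_one]

end

end Pool.Agent.Helper97.CF
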