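import Pool.Agent.Helper55.CF.Goals

/-!
# CUBE: a cubic form on a subspace all of whose zeros are singular is a cube
-/

noncomputable section
namespace CF55
namespace PkCUBE

lemma expand3 (T : Tri) (hT : Sym T) (x y z : V) :
    T (x + y + z) (x + y + z) (x + y + z) = T x x x + T y y y + T z z z
      + 3 * T x x y + 3 * T x x z + 3 * T y y x + 3 * T y y z + 3 * T z z x + 3 * T z z y
      + 6 * T x y z := by
  simp only [map_add, LinearMap.add_apply]
  rw [hT.s23 x y x, hT.s23 x z x, hT.s12 y x x, hT.s23 x y x, hT.s12 z x x, hT.s23 x z x,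
    hT.s12 x y y, hT.s23 y x y, hT.s12 z y y, hT.s23 y z y, hT.s12 x z z, hT.s23 z x z,
    hT.s12 y z z, hT.s23 z y z]
  rw [hT.s23 x z y, hT.s12 y x z, hT.s12 z x y, hT.s23 x z y, hT.s23 y z x, hT.s12 y x z,
    hT.s23 z y x, hT.s12 z x y, hT.s23 x z y]
  ring

lemma expand2 (T : Tri) (hT : Sym T) (x y : V) :
    T (x + y) (x + y) (x + y) = T x x x + T y y y + 3 * T x x y + 3 * T y y x := by
  have h := expand3 T hT x y 0
  simpa using h

theorem stmtCUBE : G_CUBE := by
  intro T H hT hH
  by_cases h0 : ∀ x ∈ H, T x x x = 0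
  · refine ⟨0, fun x hx y hy z hz => ?_⟩
    have h1 := hH (x + y) (H.add_mem hx hy) (h0 _ (H.add_mem hx hy)) z hz
    have h2 := hH x hx (h0 _ hx) z hz
    have h3 := hH y hy (h0 _ hy) z hz
    simp only [map_add, LinearMap.add_apply] at h1
    rw [hT.s12 y x z, h2, h3] at h1
    simp only [LinearMap.zero_apply, mul_zero]
    linear_combination h1 / 2
  · push Not at h0
    obtain ⟨x, hx, hxx⟩ := h0
    obtain ⟨s, hs⟩ := IsAlgClosed.exists_pow_nat_eq (T x x x) (n := 3) (by norm_num)
    have hs0 : s ≠ 0 := by
      intro h; rw [h] at hs; apply hxx; rw [← hs]; norm_num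
    obtain ⟨p, hp, hppp⟩ : ∃ p ∈ H, T p p p = 1 := by
      refine ⟨s⁻¹ • x, H.smul_mem _ hx, ?_⟩
      simp only [map_smul, LinearMap.smul_apply, smul_eq_mul]
      rw [← hs]
      field_simp
    have hcube : ∀ v ∈ H, T v v v = (T p p v) ^ 3 := by
      intro v hv
      have hE : ∀ t : ℂ, T (v + (-t) • p) (v + (-t) • p) (v + (-t) • p) =
          T v v v - 3 * t * T v v p + 3 * t ^ 2 * T p p v - t ^ 3 := by
        intro t
        rw [expand2 T hT]
        simp only [map_smul, LinearMap.smul_apply, smul_eq_mul, hppp]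
        ring
      have hE' : ∀ t : ℂ, T (v + (-t) • p) (v + (-t) • p) p =
          T v v p - 2 * t * T p p v + t ^ 2 := by
        intro t
        simp only [map_add, map_smul, LinearMap.add_apply, LinearMap.smul_apply, smul_eq_mul, hppp]
        rw [hT.s12 v p p, hT.s23 p v p]
        ring
      have hkey : ∀ t : ℂ, T v v v - 3 * t * T v v p + 3 * t ^ 2 * T p p v - t ^ 3 = 0 →
          T v v p - 2 * t * T p p v + t ^ 2 = 0 := by
        intro t ht
        rw [← hE']
        exact hH _ (H.add_mem hv (H.smul_mem _ hp)) (by rw [hE]; exact ht) p hp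
      set a := T p p v with ha
      set b := T v v p with hb
      set c := T v v v with hc
      obtain ⟨t0, ht0⟩ : ∃ t0 : ℂ, c - 3 * t0 * b + 3 * t0 ^ 2 * a - t0 ^ 3 = 0 := by
        obtain ⟨t, ht⟩ := IsAlgClosed.exists_root
          (Polynomial.X ^ 3 + (Polynomial.C (-3 * a) * Polynomial.X ^ 2
            + Polynomial.C (3 * b) * Polynomial.X + Polynomial.C (-c)) : Polynomial ℂ) (by
            have : (Polynomial.X ^ 3 + (Polynomial.C (-3 * a) * Polynomial.X ^ 2
              + Polynomial.C (3 * b) * Polynomial.X + Polynomial.C (-c)) : Polynomial ℂ).degree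
                = 3 := by
              compute_degree!
            rw [this]; norm_num)
        refine ⟨t, ?_⟩
        have h2 : t ^ 3 + (-3 * a * t ^ 2 + 3 * b * t + -c) = 0 := by
          simpa [Polynomial.IsRoot] using ht
        linear_combination -h2
      have h1 := hkey t0 ht0
      have h2 : c - 3 * (3 * a - 2 * t0) * b + 3 * (3 * a - 2 * t0) ^ 2 * a
          - (3 * a - 2 * t0) ^ 3 = 0 := by
        linear_combination ht0 - 9 * (a - t0) * h1
      have h3 := hkey _ h2
      have h4 : (a - t0) ^ 2 = 0 := by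
        linear_combination (h3 - h1) / 3
      have h5 : t0 = a := by
        have := pow_eq_zero_iff (two_ne_zero) |>.1 h4
        linear_combination -this
      rw [h5] at ht0 h1
      linear_combination ht0 + 3 * a * h1
    refine ⟨T p p, fun x hx y hy z hz => ?_⟩
    have e1 := expand3 T hT x y z
    have e2 := expand2 T hT x y
    have e3 := expand2 T hT x z
    have e4 := expand2 T hT y z
    have c1 := hcube _ (H.add_mem (H.add_mem hx hy) hz)
    have c2 := hcube _ (H.add_mem hx hy)
    have c3 := hcube _ (H.add_mem hx hz)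
    have c4 := hcube _ (H.add_mem hy hz)
    have c5 := hcube _ hx
    have c6 := hcube _ hy
    have c7 := hcube _ hz
    have m1 : T p p (x + y + z) = T p p x + T p p y + T p p z := by rw [map_add, map_add]
    have m2 : T p p (x + y) = T p p x + T p p y := by rw [map_add]
    have m3 : T p p (x + z) = T p p x + T p p z := by rw [map_add]
    have m4 : T p p (y + z) = T p p y + T p p z := by rw [map_add]
    rw [m1] at c1
    rw [m2] at c2
    rw [m3] at c3
    rw [m4] at c4
    linear_combination (-(e1 - e2 - e3 - e4) + c1 - c2 - c3 - c4 + c5 + c6 + c7) / 6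

end PkCUBE

theorem stmtCUBE : G_CUBE := PkCUBE.stmtCUBE

end CF55
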